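import Mathlib

/-!
# MP_c13439: entropy duality up to a logarithm of the entropy (helper10)

Abstract part: two convex sets `P`, `Q` paired by a bilinear form `b`. A net of `P` in the norm
`sup_Q |b|` gives nets of `Q` in the norm `sup_P |b|`.
-/

set_option autoImplicit false

namespace Pool.Agent.Work.MP_c13439_h10

open Finset

/-! ### exponential tilting -/

section gibbs
variable {κ ι : Type*} [Fintype κ] [Fintype ι]

lemma jensen_exp {q a : ι → ℝ} (hq : ∀ i, 0 ≤ q i) (hq1 : ∑ i, q i = 1) :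
    Real.exp (∑ i, q i * a i) ≤ ∑ i, q i * Real.exp (a i) := by
  have h := convexOn_exp.map_sum_le (t := univ) (w := q) (p := a) (fun i _ => hq i) hq1
    (fun i _ => Set.mem_univ _)
  simpa only [smul_eq_mul] using h

/-- a minimiser over the simplex satisfies the first order condition -/
lemma exists_min [Nonempty κ] (w : ι → ℝ) (θ : ℝ) (hθ : 0 < θ) (B : κ → ι → ℝ) :
    ∃ α ∈ stdSimplex ℝ κ, ∀ k, ∑ i, w i * Real.exp (θ * ∑ k', α k' * B k' i) *
      (∑ k', α k' * B k' i) ≤ ∑ i, w i * Real.exp (θ * ∑ k', α k' * B k' i) * B k i := by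
  classical
  set G : (κ → ℝ) → ℝ := fun α => ∑ i, w i * Real.exp (θ * ∑ k', α k' * B k' i) with hG
  have hcont : Continuous G := by
    rw [hG]
    fun_prop
  obtain ⟨k0⟩ := ‹Nonempty κ›
  have hne : (stdSimplex ℝ κ).Nonempty := ⟨Pi.single k0 1, single_mem_stdSimplex ℝ k0⟩
  obtain ⟨α, hα, hmin⟩ := (isCompact_stdSimplex ℝ κ).exists_isMinOn hne hcont.continuousOn
  refine ⟨α, hα, fun k => ?_⟩
  set S : ι → ℝ := fun i => ∑ k', α k' * B k' i with hS
  set g : ℝ → ℝ := fun s => ∑ i, w i * Real.exp (θ * (S i + s * (B k i - S i))) with hg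
  have hgd : HasDerivAt g (∑ i, w i * (Real.exp (θ * (S i + 0 * (B k i - S i))) *
      (θ * (B k i - S i)))) 0 := by
    rw [hg]
    refine HasDerivAt.fun_sum fun i _ => ?_
    refine HasDerivAt.const_mul (w i) ?_
    refine HasDerivAt.exp ?_
    refine HasDerivAt.const_mul θ ?_
    have h1 : HasDerivAt (fun s : ℝ => s * (B k i - S i)) (B k i - S i) 0 := by
      simpa using (hasDerivAt_id (0 : ℝ)).mul_const (B k i - S i)
    exact h1.const_add (S i)
  have hpath : ∀ s : ℝ, 0 ≤ s → s ≤ 1 → g 0 ≤ g s := by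
    intro s hs0 hs1
    have hmem : (1 - s) • α + s • (Pi.single k 1 : κ → ℝ) ∈ stdSimplex ℝ κ :=
      convex_stdSimplex ℝ κ hα (single_mem_stdSimplex ℝ k) (by linarith) hs0 (by ring)
    have h1 := hmin hmem
    have h2 : G ((1 - s) • α + s • (Pi.single k 1 : κ → ℝ)) = g s := by
      rw [hG, hg]
      refine sum_congr rfl fun i _ => ?_
      congr 3
      have h3 : ∀ k', ((1 - s) • α + s • (Pi.single k 1 : κ → ℝ)) k' * B k' i =
          (1 - s) * (α k' * B k' i) + s * ((Pi.single k 1 : κ → ℝ) k' * B k' i) := by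
        intro k'
        simp only [Pi.add_apply, Pi.smul_apply, smul_eq_mul]
        ring
      simp only [h3, sum_add_distrib, ← mul_sum]
      have h4 : ∑ k', (Pi.single k 1 : κ → ℝ) k' * B k' i = B k i := by
        rw [sum_eq_single k]
        · simp
        · intro b _ hb
          simp [Pi.single_eq_of_ne hb]
        · simp
      rw [h4]
      change (1 - s) * S i + s * B k i = S i + s * (B k i - S i)
      ring
    have h3 : G α = g 0 := by
      rw [hG, hg]
      refine sum_congr rfl fun i _ => ?_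
      simp [hS]
    have h4 : G α ≤ G ((1 - s) • α + s • (Pi.single k 1 : κ → ℝ)) := h1
    rw [h2, h3] at h4
    exact h4
  have hnn : 0 ≤ ∑ i, w i * (Real.exp (θ * (S i + 0 * (B k i - S i))) * (θ * (B k i - S i))) := by
    have h1 := (hasDerivAt_iff_tendsto_slope_zero.1 hgd)
    have h2 : Filter.Tendsto (fun t : ℝ => t⁻¹ • (g (0 + t) - g 0)) (nhdsWithin 0 (Set.Ioi 0))
        (nhds (∑ i, w i * (Real.exp (θ * (S i + 0 * (B k i - S i))) * (θ * (B k i - S i))))) :=
      h1.mono_left (nhdsWithin_mono _ (fun x hx => ne_of_gt hx))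
    refine ge_of_tendsto h2 ?_
    have h3 : Set.Ioo (0 : ℝ) 1 ∈ nhdsWithin (0 : ℝ) (Set.Ioi 0) :=
      Ioo_mem_nhdsGT (by norm_num)
    filter_upwards [h3] with t ht
    rw [zero_add, smul_eq_mul]
    exact mul_nonneg (inv_nonneg.2 ht.1.le) (by linarith [hpath t ht.1.le ht.2.le])
  have h5 : ∑ i, w i * (Real.exp (θ * (S i + 0 * (B k i - S i))) * (θ * (B k i - S i))) =
      θ * (∑ i, w i * Real.exp (θ * S i) * B k i - ∑ i, w i * Real.exp (θ * S i) * S i) := by
    rw [← sum_sub_distrib, mul_sum]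
    refine sum_congr rfl fun i _ => ?_
    rw [zero_mul, add_zero]
    ring
  rw [h5] at hnn
  have h6 := nonneg_of_mul_nonneg_right hnn hθ
  change ∑ i, w i * Real.exp (θ * S i) * S i ≤ ∑ i, w i * Real.exp (θ * S i) * B k i
  linarith

end gibbs

variable {E F : Type*} [AddCommGroup E] [Module ℝ E] [AddCommGroup F] [Module ℝ F]

/-- the finite set `C ⊆ P` is a `δ`-net of `P` in the norm `sup_Q |b|` -/
def Net (b : E →ₗ[ℝ] F →ₗ[ℝ] ℝ) (P : Set E) (Q : Set F) (C : Finset E) (δ : ℝ) : Prop :=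
  (∀ y ∈ C, y ∈ P) ∧ ∀ x ∈ P, ∃ y ∈ C, ∀ ζ ∈ Q, |b x ζ - b y ζ| ≤ δ

/-- the state: `ξ` is almost a mean of the points `z i` with respect to a measure with density at
most `exp τ` with respect to `w`, up to an error `e` -/
def St (b : E →ₗ[ℝ] F →ₗ[ℝ] ℝ) (P : Set E) {ι : Type*} [Fintype ι] (z : ι → F) (w : ι → ℝ)
    (τ e : ℝ) (ξ : F) : Prop :=
  ∀ θ : ℝ, 0 ≤ θ → ∀ x ∈ P, Real.exp (-(τ + θ * e)) ≤ ∑ i, w i * Real.exp (θ * b x (z i - ξ))

/-- the tilted weights -/
noncomputable def gib (b : E →ₗ[ℝ] F →ₗ[ℝ] ℝ) {ι : Type*} [Fintype ι] (z : ι → F) (θ : ℝ) (y : E)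
    (w : ι → ℝ) : ι → ℝ :=
  fun i => w i * Real.exp (θ * b y (z i)) / ∑ j, w j * Real.exp (θ * b y (z j))

section stage
variable {b : E →ₗ[ℝ] F →ₗ[ℝ] ℝ} {P : Set E} {Q : Set F} {C : Finset E} {δ : ℝ}
  {ι : Type*} [Fintype ι] [Nonempty ι] {z : ι → F} {w : ι → ℝ}

lemma gib_pos (hw : ∀ i, 0 < w i) (θ : ℝ) (y : E) (i : ι) : 0 < gib b z θ y w i := by
  have h : 0 < ∑ j, w j * Real.exp (θ * b y (z j)) :=
    sum_pos (fun j _ => mul_pos (hw j) (Real.exp_pos _)) univ_nonempty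
  exact div_pos (mul_pos (hw i) (Real.exp_pos _)) h

lemma gib_sum (hw : ∀ i, 0 < w i) (θ : ℝ) (y : E) : ∑ i, gib b z θ y w i = 1 := by
  have h : 0 < ∑ j, w j * Real.exp (θ * b y (z j)) :=
    sum_pos (fun j _ => mul_pos (hw j) (Real.exp_pos _)) univ_nonempty
  unfold gib
  rw [← sum_div, div_self h.ne']

/-- changing the tilting functional by at most `δ` changes the tilted weights by a factor at most
`exp (2 θ δ)` -/
lemma gib_le (hw : ∀ i, 0 < w i) {θ : ℝ} (hθ : 0 ≤ θ) {x y : E}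
    (hxy : ∀ i, |b x (z i) - b y (z i)| ≤ δ) (i : ι) :
    gib b z θ x w i ≤ Real.exp (2 * θ * δ) * gib b z θ y w i := by
  have hx : 0 < ∑ j, w j * Real.exp (θ * b x (z j)) :=
    sum_pos (fun j _ => mul_pos (hw j) (Real.exp_pos _)) univ_nonempty
  have hy : 0 < ∑ j, w j * Real.exp (θ * b y (z j)) :=
    sum_pos (fun j _ => mul_pos (hw j) (Real.exp_pos _)) univ_nonempty
  have h1 : w i * Real.exp (θ * b x (z i)) ≤ Real.exp (θ * δ) * (w i * Real.exp (θ * b y (z i))) := by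
    have h2 : Real.exp (θ * b x (z i)) ≤ Real.exp (θ * δ) * Real.exp (θ * b y (z i)) := by
      rw [← Real.exp_add]
      refine Real.exp_le_exp.2 ?_
      have := (abs_le.1 (hxy i)).2
      nlinarith
    calc w i * Real.exp (θ * b x (z i)) ≤ w i * (Real.exp (θ * δ) * Real.exp (θ * b y (z i))) :=
          mul_le_mul_of_nonneg_left h2 (hw i).le
      _ = _ := by ring
  have h3 : ∑ j, w j * Real.exp (θ * b y (z j)) ≤
      Real.exp (θ * δ) * ∑ j, w j * Real.exp (θ * b x (z j)) := by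
    rw [mul_sum]
    refine sum_le_sum fun j _ => ?_
    have h2 : Real.exp (θ * b y (z j)) ≤ Real.exp (θ * δ) * Real.exp (θ * b x (z j)) := by
      rw [← Real.exp_add]
      refine Real.exp_le_exp.2 ?_
      have := (abs_le.1 (hxy j)).1
      nlinarith
    calc w j * Real.exp (θ * b y (z j)) ≤ w j * (Real.exp (θ * δ) * Real.exp (θ * b x (z j))) :=
          mul_le_mul_of_nonneg_left h2 (hw j).le
      _ = _ := by ring
  have h4 : Real.exp (2 * θ * δ) = Real.exp (θ * δ) * Real.exp (θ * δ) := by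
    rw [← Real.exp_add]; congr 1; ring
  unfold gib
  rw [div_le_iff₀ hx, h4]
  have h5 : w i * Real.exp (θ * b y (z i)) / (∑ j, w j * Real.exp (θ * b y (z j))) *
      (∑ j, w j * Real.exp (θ * b y (z j))) = w i * Real.exp (θ * b y (z i)) :=
    div_mul_cancel₀ _ hy.ne'
  have h6 : 0 ≤ w i * Real.exp (θ * b y (z i)) / (∑ j, w j * Real.exp (θ * b y (z j))) :=
    (div_pos (mul_pos (hw i) (Real.exp_pos _)) hy).le
  calc w i * Real.exp (θ * b x (z i)) ≤ Real.exp (θ * δ) * (w i * Real.exp (θ * b y (z i))) := h1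
    _ = Real.exp (θ * δ) * (w i * Real.exp (θ * b y (z i)) / (∑ j, w j * Real.exp (θ * b y (z j))) *
      (∑ j, w j * Real.exp (θ * b y (z j)))) := by rw [h5]
    _ ≤ Real.exp (θ * δ) * (w i * Real.exp (θ * b y (z i)) / (∑ j, w j * Real.exp (θ * b y (z j))) *
      (Real.exp (θ * δ) * ∑ j, w j * Real.exp (θ * b x (z j)))) := by
        refine mul_le_mul_of_nonneg_left ?_ (Real.exp_pos _).le
        exact mul_le_mul_of_nonneg_left h3 h6
    _ = _ := by ring

/-- one stage: one element of the net reduces the relative entropy -/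
lemma stage (hP : Convex ℝ P) (hQ : Convex ℝ Q) (hC : Net b P Q C δ)
    (hPne : P.Nonempty) (hz : ∀ i, z i ∈ Q) (hw : ∀ i, 0 < w i) (hw1 : ∑ i, w i = 1)
    {ξ : F} (hξ : ξ ∈ Q) {τ e θ : ℝ} (hθ : 0 < θ) (hS : St b P z w τ e ξ) :
    ∃ y ∈ C, St b P z (gib b z θ y w) (2 * θ * δ) (e + τ / θ + 2 * δ) ξ := by
  classical
  have hCne : C.Nonempty := by
    obtain ⟨x, hx⟩ := hPne
    obtain ⟨y, hy, _⟩ := hC.2 x hx
    exact ⟨y, hy⟩
  have : Nonempty C := hCne.to_subtype
  obtain ⟨α, hα, hmin⟩ := exists_min (κ := C) w θ hθ (fun k i => b (k : E) (z i - ξ))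
  set xs : E := ∑ k : C, α k • (k : E) with hxs
  have hxsP : xs ∈ P := by
    rw [hxs]
    exact hP.sum_mem (fun k _ => hα.1 k) hα.2 (fun k _ => hC.1 k k.2)
  have hbx : ∀ ζ : F, b xs ζ = ∑ k : C, α k * b (k : E) ζ := by
    intro ζ
    rw [hxs, map_sum, LinearMap.sum_apply]
    refine sum_congr rfl fun k _ => ?_
    rw [map_smul, LinearMap.smul_apply, smul_eq_mul]
  simp only [← hbx] at hmin
  set g : ℝ := ∑ i, w i * Real.exp (θ * b xs (z i - ξ)) with hg
  have hgpos : 0 < g := sum_pos (fun j _ => mul_pos (hw j) (Real.exp_pos _)) univ_nonempty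
  set q : ι → ℝ := fun i => w i * Real.exp (θ * b xs (z i - ξ)) / g with hq
  have hq0 : ∀ i, 0 ≤ q i := fun i => (div_pos (mul_pos (hw i) (Real.exp_pos _)) hgpos).le
  have hq1 : ∑ i, q i = 1 := by
    rw [hq]
    simp only
    rw [← sum_div, div_self hgpos.ne']
  -- the mean
  set m : F := ∑ i, q i • z i with hm
  have hmQ : m ∈ Q := hQ.sum_mem (fun i _ => hq0 i) hq1 (fun i _ => hz i)
  have hbm : ∀ x : E, ∑ i, q i * b x (z i - ξ) = b x m - b x ξ := by
    intro x
    have h1 : ∀ i, q i * b x (z i - ξ) = q i * b x (z i) - q i * b x ξ := by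
      intro i
      rw [map_sub]; ring
    simp only [h1]
    rw [sum_sub_distrib, ← sum_mul, hq1, one_mul, hm, map_sum]
    simp only [map_smul, smul_eq_mul]
  -- first order condition
  have hfoc : ∀ y ∈ C, b xs m - b xs ξ ≤ b y m - b y ξ := by
    intro y hy
    have h1 := hmin ⟨y, hy⟩
    simp only at h1
    rw [← hbm, ← hbm]
    have h2 : ∀ x : E, ∑ i, q i * b x (z i - ξ) =
        (∑ i, w i * Real.exp (θ * b xs (z i - ξ)) * b x (z i - ξ)) / g := by
      intro x
      rw [sum_div]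
      refine sum_congr rfl fun i _ => ?_
      rw [hq]
      ring
    rw [h2, h2]
    exact div_le_div_of_nonneg_right h1 hgpos.le
  -- relative entropy
  have hent : -(e + τ / θ) ≤ b xs m - b xs ξ := by
    have h1 : Real.exp (∑ i, q i * (-(θ * b xs (z i - ξ)))) ≤
        ∑ i, q i * Real.exp (-(θ * b xs (z i - ξ))) := jensen_exp hq0 hq1
    have h2 : Real.exp (-(τ + θ * e)) ≤ g := hS θ hθ.le xs hxsP
    have h3 : ∑ i, q i * Real.exp (-(θ * b xs (z i - ξ))) = 1 / g := by
      rw [← hw1, sum_div]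
      refine sum_congr rfl fun i _ => ?_
      rw [hq]
      simp only
      rw [Real.exp_neg]
      have := Real.exp_pos (θ * b xs (z i - ξ))
      field_simp
    have h4 : ∑ i, q i * (-(θ * b xs (z i - ξ))) = -(θ * (b xs m - b xs ξ)) := by
      rw [← hbm, mul_sum, ← sum_neg_distrib]
      refine sum_congr rfl fun i _ => ?_
      ring
    rw [h3, h4, le_div_iff₀ hgpos] at h1
    have h5 : Real.exp (-(θ * (b xs m - b xs ξ))) * Real.exp (-(τ + θ * e)) ≤ 1 :=
      (mul_le_mul_of_nonneg_left h2 (Real.exp_pos _).le).trans h1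
    rw [← Real.exp_add, Real.exp_le_one_iff] at h5
    have h6 : -(τ + θ * e) ≤ θ * (b xs m - b xs ξ) := by linarith
    have h7 : θ * (-(e + τ / θ)) = -(τ + θ * e) := by field_simp; ring
    exact le_of_mul_le_mul_left (by rw [h7]; exact h6) hθ
  -- all functionals
  have hall : ∀ x ∈ P, -(e + τ / θ + 2 * δ) ≤ b x m - b x ξ := by
    intro x hx
    obtain ⟨y, hy, hxy⟩ := hC.2 x hx
    have h1 := abs_le.1 (hxy m hmQ)
    have h2 := abs_le.1 (hxy ξ hξ)
    have h3 := hfoc y hy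
    linarith
  -- rounding
  obtain ⟨ys, hys, hcl⟩ := hC.2 xs hxsP
  refine ⟨ys, hys, ?_⟩
  have hqg : ∀ i, q i = gib b z θ xs w i := by
    intro i
    have h1 : ∀ j, w j * Real.exp (θ * b xs (z j - ξ)) =
        (w j * Real.exp (θ * b xs (z j))) * Real.exp (-(θ * b xs ξ)) := by
      intro j
      rw [map_sub, mul_assoc, ← Real.exp_add]
      congr 2
      ring
    rw [hq]
    simp only
    rw [hg]
    simp only [h1]
    rw [← sum_mul]
    unfold gib
    exact mul_div_mul_right _ _ (Real.exp_pos _).ne'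
  have hround : ∀ i, q i ≤ Real.exp (2 * θ * δ) * gib b z θ ys w i := by
    intro i
    rw [hqg]
    exact gib_le hw hθ.le (fun j => hcl (z j) (hz j)) i
  intro θ' hθ' x hx
  have h1 : Real.exp (∑ i, q i * (θ' * b x (z i - ξ))) ≤
      ∑ i, q i * Real.exp (θ' * b x (z i - ξ)) := jensen_exp hq0 hq1
  have h2 : ∑ i, q i * (θ' * b x (z i - ξ)) = θ' * (b x m - b x ξ) := by
    rw [← hbm, mul_sum]
    refine sum_congr rfl fun i _ => ?_
    ring
  have h3 : ∑ i, q i * Real.exp (θ' * b x (z i - ξ)) ≤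
      Real.exp (2 * θ * δ) * ∑ i, gib b z θ ys w i * Real.exp (θ' * b x (z i - ξ)) := by
    rw [mul_sum]
    refine sum_le_sum fun i _ => ?_
    rw [← mul_assoc]
    exact mul_le_mul_of_nonneg_right (hround i) (Real.exp_pos _).le
  have h4 : Real.exp (-(θ' * (e + τ / θ + 2 * δ))) ≤ Real.exp (∑ i, q i * (θ' * b x (z i - ξ))) := by
    rw [h2]
    refine Real.exp_le_exp.2 ?_
    have := mul_le_mul_of_nonneg_left (hall x hx) hθ'
    linarith
  have h5 := (h4.trans h1).trans h3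
  have h6 : Real.exp (-(2 * θ * δ + θ' * (e + τ / θ + 2 * δ))) =
      Real.exp (-(2 * θ * δ)) * Real.exp (-(θ' * (e + τ / θ + 2 * δ))) := by
    rw [← Real.exp_add]; congr 1; ring
  rw [h6]
  calc Real.exp (-(2 * θ * δ)) * Real.exp (-(θ' * (e + τ / θ + 2 * δ))) ≤
      Real.exp (-(2 * θ * δ)) * (Real.exp (2 * θ * δ) *
        ∑ i, gib b z θ ys w i * Real.exp (θ' * b x (z i - ξ))) :=
        mul_le_mul_of_nonneg_left h5 (Real.exp_pos _).le
    _ = ∑ i, gib b z θ ys w i * Real.exp (θ' * b x (z i - ξ)) := by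
        rw [← mul_assoc, ← Real.exp_add]
        have : -(2 * θ * δ) + 2 * θ * δ = 0 := by ring
        rw [this, Real.exp_zero, one_mul]

/-- the stages in a row -/
lemma chain (hP : Convex ℝ P) (hQ : Convex ℝ Q) (hC : Net b P Q C δ) (hδ : 0 < δ)
    (hPne : P.Nonempty) (hz : ∀ i, z i ∈ Q) (hw : ∀ i, 0 < w i) (hw1 : ∑ i, w i = 1)
    {τ e : ℝ} (hτ : 0 < τ) (J : ℕ) :
    ∃ S : Finset (ι → ℝ), S.card ≤ C.card ^ J ∧ (∀ v ∈ S, (∀ i, 0 < v i) ∧ ∑ i, v i = 1) ∧
      ∀ ξ ∈ Q, St b P z w τ e ξ → ∃ v ∈ S, St b P z v (τ / 4 ^ J) (e + 10 * J * δ) ξ := by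
  classical
  induction J with
  | zero =>
    refine ⟨{w}, by simp, ?_, ?_⟩
    · intro v hv
      rw [mem_singleton] at hv
      subst hv
      exact ⟨hw, hw1⟩
    · intro ξ _ h
      refine ⟨w, by simp, ?_⟩
      simpa using h
  | succ J ih =>
    obtain ⟨S, hcard, hprob, hS⟩ := ih
    set θ : ℝ := (τ / 4 ^ J) / (8 * δ) with hθ
    have hτJ : 0 < τ / 4 ^ J := by positivity
    have hθpos : 0 < θ := by positivity
    refine ⟨S.biUnion fun v => C.image fun y => gib b z θ y v, ?_, ?_, ?_⟩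
    · calc (S.biUnion fun v => C.image fun y => gib b z θ y v).card
          ≤ S.card * C.card := by
            refine card_biUnion_le_card_mul _ _ _ fun v _ => card_image_le
        _ ≤ C.card ^ J * C.card := Nat.mul_le_mul_right _ hcard
        _ = C.card ^ (J + 1) := (pow_succ _ _).symm
    · intro v hv
      rw [mem_biUnion] at hv
      obtain ⟨u, hu, hv⟩ := hv
      rw [mem_image] at hv
      obtain ⟨y, _, rfl⟩ := hv
      exact ⟨fun i => gib_pos (hprob u hu).1 θ y i, gib_sum (hprob u hu).1 θ y⟩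
    · intro ξ hξ hst
      obtain ⟨v, hv, hvS⟩ := hS ξ hξ hst
      obtain ⟨y, hy, hyS⟩ := stage hP hQ hC hPne hz (hprob v hv).1 (hprob v hv).2 hξ hθpos hvS
      refine ⟨gib b z θ y v, ?_, ?_⟩
      · rw [mem_biUnion]
        exact ⟨v, hv, mem_image_of_mem _ hy⟩
      · have h1 : 2 * θ * δ = τ / 4 ^ (J + 1) := by
          rw [hθ, pow_succ]
          field_simp
          norm_num
        have h2 : e + 10 * (J : ℝ) * δ + τ / 4 ^ J / θ + 2 * δ = e + 10 * ((J + 1 : ℕ) : ℝ) * δ := by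
          have h3 : τ / 4 ^ J / θ = 8 * δ := by
            rw [hθ]
            field_simp
          rw [h3]
          push_cast
          ring
        rw [h1, h2] at hyS
        exact hyS

lemma exp_le_quad {x : ℝ} (hx : |x| ≤ 1) : Real.exp x ≤ 1 + x + x ^ 2 := by
  have h := Real.abs_exp_sub_one_sub_id_le hx
  have := (abs_le.1 h).2
  linarith

/-- a state with small relative entropy gives a small error -/
lemma St.final {τ e : ℝ} {ξ : F} (hst : St b P z w τ e ξ) (hw : ∀ i, 0 < w i) (hw1 : ∑ i, w i = 1)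
    {D : ℝ} (hD : 0 < D) (hbD : ∀ x ∈ P, ∀ i, |b x (z i - ξ)| ≤ D) (hτ : 0 < τ) (hτ1 : τ ≤ 1) :
    ∀ x ∈ P, b x (ξ - ∑ i, w i • z i) ≤ e + 2 * D * √τ := by
  intro x hx
  have hs0 : 0 < √τ := Real.sqrt_pos.2 hτ
  have hs1 : √τ ≤ 1 := by rw [Real.sqrt_le_one]; exact hτ1
  have hss : √τ * √τ = τ := Real.mul_self_sqrt hτ.le
  set θ : ℝ := √τ / D with hθ
  have hθpos : 0 < θ := by positivity
  have hθD : θ * D = √τ := by rw [hθ]; field_simp
  have h1 := hst θ hθpos.le x hx
  have h2 : ∀ i, Real.exp (θ * b x (z i - ξ)) ≤ 1 + θ * b x (z i - ξ) + τ := by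
    intro i
    have h3 : |θ * b x (z i - ξ)| ≤ √τ := by
      rw [abs_mul, abs_of_pos hθpos, ← hθD]
      exact mul_le_mul_of_nonneg_left (hbD x hx i) hθpos.le
    have h4 := exp_le_quad (h3.trans hs1)
    have h5 : (θ * b x (z i - ξ)) ^ 2 ≤ τ := by
      rw [← sq_abs, ← hss, ← pow_two]
      exact pow_le_pow_left₀ (abs_nonneg _) h3 2
    linarith
  have h3 : ∑ i, w i * Real.exp (θ * b x (z i - ξ)) ≤
      1 + θ * b x (∑ i, w i • z i - ξ) + τ := by
    calc ∑ i, w i * Real.exp (θ * b x (z i - ξ)) ≤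
        ∑ i, w i * (1 + θ * b x (z i - ξ) + τ) :=
          sum_le_sum fun i _ => mul_le_mul_of_nonneg_left (h2 i) (hw i).le
      _ = ∑ i, (w i * (1 + τ) + θ * (w i * b x (z i) - w i * b x ξ)) := by
          refine sum_congr rfl fun i _ => ?_
          rw [map_sub]; ring
      _ = 1 + θ * b x (∑ i, w i • z i - ξ) + τ := by
          rw [sum_add_distrib, ← sum_mul, hw1, ← mul_sum, sum_sub_distrib, ← sum_mul, hw1, map_sub,
            map_sum]
          simp only [map_smul, smul_eq_mul]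
          ring
  have h4 : 1 - (τ + θ * e) ≤ Real.exp (-(τ + θ * e)) := by
    have := Real.add_one_le_exp (-(τ + θ * e))
    linarith
  have h5 : -(2 * τ + θ * e) ≤ θ * b x (∑ i, w i • z i - ξ) := by linarith
  have h6 : b x (ξ - ∑ i, w i • z i) = - b x (∑ i, w i • z i - ξ) := by
    rw [← map_neg]; congr 1; abel
  rw [h6]
  have h7 : θ * (-b x (∑ i, w i • z i - ξ)) ≤ θ * (e + 2 * D * √τ) := by
    have h8 : θ * (2 * D * √τ) = 2 * τ := by
      calc θ * (2 * D * √τ) = 2 * (θ * D) * √τ := by ring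
        _ = 2 * τ := by rw [hθD]; rw [mul_assoc, hss]
    rw [mul_add, h8]
    linarith
  exact le_of_mul_le_mul_left h7 hθpos

/-- the start: uniform weights on points whose convex hull is `e`-dense -/
lemma St.start {e : ℝ} {ξ : F} (hull : ∃ lam : ι → ℝ, (∀ i, 0 ≤ lam i) ∧ ∑ i, lam i = 1 ∧
    ∀ x ∈ P, |b x (ξ - ∑ i, lam i • z i)| ≤ e) :
    St b P z (fun _ => (Fintype.card ι : ℝ)⁻¹) (Real.log (Fintype.card ι)) e ξ := by
  obtain ⟨lam, hl, hl1, hle⟩ := hull
  intro θ hθ x hx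
  have hc : (0 : ℝ) < Fintype.card ι := by exact_mod_cast Fintype.card_pos
  -- some point is at least as large as the mean
  have hex : ∃ i, ∑ j, lam j * b x (z j - ξ) ≤ b x (z i - ξ) := by
    by_contra hcon
    push Not at hcon
    obtain ⟨j, hj⟩ : ∃ j, 0 < lam j := by
      by_contra h
      push Not at h
      have : ∑ i, lam i ≤ 0 := sum_nonpos fun i _ => h i
      linarith
    have h1 : ∑ i, lam i * b x (z i - ξ) < ∑ i, lam i * (∑ j, lam j * b x (z j - ξ)) := by
      refine sum_lt_sum (fun i _ => mul_le_mul_of_nonneg_left (hcon i).le (hl i)) ⟨j, mem_univ _, ?_⟩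
      exact mul_lt_mul_of_pos_left (hcon j) hj
    rw [← sum_mul, hl1, one_mul] at h1
    exact lt_irrefl _ h1
  obtain ⟨i, hi⟩ := hex
  have h1 : ∑ j, lam j * b x (z j - ξ) = - b x (ξ - ∑ j, lam j • z j) := by
    have h2 : ∀ j, lam j * b x (z j - ξ) = lam j * b x (z j) - lam j * b x ξ := by
      intro j
      rw [map_sub]; ring
    simp only [h2]
    rw [sum_sub_distrib, ← sum_mul, hl1, map_sub, map_sum]
    simp only [map_smul, smul_eq_mul]
    ring
  have h2 : -e ≤ b x (z i - ξ) := by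
    have := (abs_le.1 (hle x hx)).2
    rw [h1] at hi
    linarith
  calc Real.exp (-(Real.log (Fintype.card ι) + θ * e)) =
      (Fintype.card ι : ℝ)⁻¹ * Real.exp (-(θ * e)) := by
        rw [neg_add, Real.exp_add, Real.exp_neg, Real.exp_log hc]
    _ ≤ (Fintype.card ι : ℝ)⁻¹ * Real.exp (θ * b x (z i - ξ)) := by
        refine mul_le_mul_of_nonneg_left ?_ (by positivity)
        refine Real.exp_le_exp.2 ?_
        have := mul_le_mul_of_nonneg_left h2 hθ
        linarith
    _ ≤ ∑ i, (Fintype.card ι : ℝ)⁻¹ * Real.exp (θ * b x (z i - ξ)) :=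
        single_le_sum (f := fun i => (Fintype.card ι : ℝ)⁻¹ * Real.exp (θ * b x (z i - ξ)))
          (fun j _ => by positivity) (mem_univ i)

/-- LOCAL COVERING: a subset of `Q` contained in the `e`-neighbourhood of the convex hull of the
points `z i`, of diameter `D` as seen from them, is covered by `N ^ J` points -/
theorem local_cover (hP : Convex ℝ P) (hPs : ∀ x ∈ P, -x ∈ P) (hQ : Convex ℝ Q)
    (hC : Net b P Q C δ) (hδ : 0 < δ) (hPne : P.Nonempty) (hz : ∀ i, z i ∈ Q)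
    {e D : ℝ} (hD : 0 < D) (J : ℕ) (h2 : 2 ≤ Fintype.card ι)
    (hJ : Real.log (Fintype.card ι) ≤ 4 ^ J) :
    ∃ W : Finset F, W.card ≤ C.card ^ J ∧ ∀ ξ ∈ Q, (∀ x ∈ P, ∀ i, |b x (z i - ξ)| ≤ D) →
      (∃ lam : ι → ℝ, (∀ i, 0 ≤ lam i) ∧ ∑ i, lam i = 1 ∧
        ∀ x ∈ P, |b x (ξ - ∑ i, lam i • z i)| ≤ e) →
      ∃ v ∈ W, ∀ x ∈ P, |b x (ξ - v)| ≤ e + 10 * J * δ +
        2 * D * √(Real.log (Fintype.card ι) / 4 ^ J) := by
  classical
  have hc : (0 : ℝ) < Fintype.card ι := by exact_mod_cast Fintype.card_pos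
  have hτ : 0 < Real.log (Fintype.card ι) := Real.log_pos (by exact_mod_cast h2)
  obtain ⟨S, hScard, hprob, hS⟩ := chain (w := fun _ : ι => (Fintype.card ι : ℝ)⁻¹) (e := e)
    hP hQ hC hδ hPne hz (fun _ => by positivity) (by simp) hτ J
  refine ⟨S.image fun v => ∑ i, v i • z i, card_image_le.trans hScard, ?_⟩
  intro ξ hξ hbD hull
  obtain ⟨v, hv, hst⟩ := hS ξ hξ (St.start hull)
  refine ⟨∑ i, v i • z i, mem_image_of_mem _ hv, ?_⟩
  have h4 : (0 : ℝ) < 4 ^ J := by positivity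
  have hfin := hst.final (hprob v hv).1 (hprob v hv).2 hD hbD (by positivity)
    ((div_le_one h4).2 hJ)
  intro x hx
  rw [abs_le]
  constructor
  · have := hfin (-x) (hPs x hx)
    rw [map_neg, LinearMap.neg_apply] at this
    linarith
  · exact hfin x hx

end stage

end Pool.Agent.Work.MP_c13439_h10
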