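import Mathlib
import Pool.Agent.Work.MP_c13439_h10.Core
import Pool.Agent.Work.MP_c13439_an.Main

/-!
# MP_c13439: one scale and the telescoping, with a logarithm of the entropy (helper10)
-/

set_option autoImplicit false

namespace Pool.Agent.Work.MP_c13439_h10

open Finset Pool.Agent.Work.MP_c13439_an

section

variable {𝕜 X Y : Type*} [RCLike 𝕜] [NormedAddCommGroup X] [NormedSpace 𝕜 X]
  [NormedAddCommGroup Y] [NormedSpace 𝕜 Y]

theorem log_card_le (k : ℕ) : Real.log (67 * 2 ^ k) ≤ (k : ℝ) + 5 := by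
  rw [Real.log_mul (by norm_num) (by positivity), Real.log_pow]
  have h1 : Real.log 67 ≤ 5 := by
    rw [Real.log_le_iff_le_exp (by norm_num)]
    have h2 : (2.7 : ℝ) ^ 5 ≤ Real.exp 5 := by
      have h3 : (2.7 : ℝ) ≤ Real.exp 1 := by
        have := Real.exp_one_gt_d9
        linarith
      calc (2.7 : ℝ) ^ 5 ≤ (Real.exp 1) ^ 5 := pow_le_pow_left₀ (by norm_num) h3 5
        _ = Real.exp 5 := by rw [← Real.exp_nat_mul]; norm_num
    have h3 : (67 : ℝ) ≤ (2.7 : ℝ) ^ 5 := by norm_num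
    linarith
  have h2 : Real.log 2 ≤ 1 := by
    have := Real.log_two_lt_d9
    linarith
  have h3 : (k : ℝ) * Real.log 2 ≤ (k : ℝ) * 1 := mul_le_mul_of_nonneg_left h2 (Nat.cast_nonneg k)
  linarith

theorem one_scale_log (T : X →L[𝕜] Y) (k J : ℕ) (s : ℝ) (hs : 0 < s)
    (hJ : 16384 * (k + 5) ≤ 4 ^ J) (w : Fin (2 ^ k) → Y)
    (cover : ∀ x : X, ‖x‖ ≤ 1 → ∃ c, ‖T x - w c‖ ≤ s / (80 * J)) :
    ∃ W : Fin (2 ^ (k * J)) → (X →L[𝕜] 𝕜), ∀ y : Y →L[𝕜] 𝕜, ‖y‖ ≤ 1 →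
      ‖y.comp T‖ ≤ 8 * s → ∃ i, ‖y.comp T - W i‖ ≤ s := by
  classical
  have hJ1 : 1 ≤ J := by
    rcases Nat.eq_zero_or_pos J with h | h
    · subst h
      simp at hJ
      omega
    · exact h
  have hJr : (1 : ℝ) ≤ J := by exact_mod_cast hJ1
  set D : Set (Y →L[𝕜] 𝕜) := {y | ‖y‖ ≤ 1 ∧ ‖y.comp T‖ ≤ 8 * s} with hD
  have hρ : s / (80 * J) ≤ s / 80 := by
    refine div_le_div_of_nonneg_left hs.le (by norm_num) ?_
    nlinarith
  obtain ⟨m, hm, y, hyD, hhull⟩ := exists_hull T D (s / 2) (s / (80 * J)) (by positivity)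
    (fun y hy => hy.1) (fun y hy => by have := hy.2; linarith) (2 ^ k) w cover (by linarith)
  -- centres inside the image
  have hxc : ∀ c : Fin (2 ^ k), ∃ xc : X, ‖xc‖ ≤ 1 ∧
      ∀ x : X, ‖x‖ ≤ 1 → ‖T x - w c‖ ≤ s / (80 * J) → ‖T x - T xc‖ ≤ s / (40 * J) := by
    intro c
    by_cases h : ∃ x : X, ‖x‖ ≤ 1 ∧ ‖T x - w c‖ ≤ s / (80 * J)
    · obtain ⟨x0, hx0, h0⟩ := h
      refine ⟨x0, hx0, fun x _ hxw => ?_⟩
      calc ‖T x - T x0‖ = ‖(T x - w c) - (T x0 - w c)‖ := by congr 1; abel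
        _ ≤ ‖T x - w c‖ + ‖T x0 - w c‖ := norm_sub_le _ _
        _ ≤ s / (80 * J) + s / (80 * J) := add_le_add hxw h0
        _ = s / (40 * J) := by field_simp; norm_num
    · refine ⟨0, by simp, fun x hx hxw => absurd ⟨x, hx, hxw⟩ h⟩
  choose xc hxc1 hxc2 using hxc
  have hcov2 : ∀ x : X, ‖x‖ ≤ 1 → ∃ c, ‖T x - T (xc c)‖ ≤ s / (40 * J) := by
    intro x hx
    obtain ⟨c, hc⟩ := cover x hx
    exact ⟨c, hxc2 c x hx hc⟩
  -- real structures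
  let _ : Module ℝ X := Module.compHom X (algebraMap ℝ 𝕜)
  have hsmulX : ∀ (r : ℝ) (x : X), r • x = ((r : ℝ) : 𝕜) • x := fun _ _ => rfl
  have hsmulY : ∀ (r : ℝ) (f : Y →L[𝕜] 𝕜), r • f = ((r : ℝ) : 𝕜) • f := fun r f => by
    ext v
    simp only [smul_apply, smul_eq_mul, RCLike.real_smul_eq_coe_mul]
  let b : X →ₗ[ℝ] (Y →L[𝕜] 𝕜) →ₗ[ℝ] ℝ := LinearMap.mk₂ ℝ (fun x f => RCLike.re (f (T x)))
    (fun x x' f => by simp only [map_add])
    (fun r x f => by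
      rw [hsmulX]
      simp only [map_smul, smul_eq_mul, RCLike.re_ofReal_mul])
    (fun x f f' => by simp only [add_apply, map_add])
    (fun r x f => by
      rw [hsmulY]
      simp only [smul_apply, smul_eq_mul, RCLike.re_ofReal_mul])
  have hb : ∀ x f, b x f = RCLike.re (f (T x)) := fun x f => rfl
  set P : Set X := {x | ‖x‖ ≤ 1} with hP
  set Q : Set (Y →L[𝕜] 𝕜) := {f | ‖f‖ ≤ 1} with hQ
  have hPconv : Convex ℝ P := by
    intro x hx x' hx' a a' ha ha' haa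
    have hx1 : ‖x‖ ≤ 1 := hx
    have hx2 : ‖x'‖ ≤ 1 := hx'
    show ‖a • x + a' • x'‖ ≤ 1
    rw [hsmulX, hsmulX]
    calc ‖((a : ℝ) : 𝕜) • x + ((a' : ℝ) : 𝕜) • x'‖ ≤ ‖((a : ℝ) : 𝕜) • x‖ + ‖((a' : ℝ) : 𝕜) • x'‖ :=
          norm_add_le _ _
      _ = a * ‖x‖ + a' * ‖x'‖ := by
          rw [norm_smul, norm_smul, RCLike.norm_ofReal, RCLike.norm_ofReal, abs_of_nonneg ha,
            abs_of_nonneg ha']
      _ ≤ 1 := by nlinarith
  have hQconv : Convex ℝ Q := by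
    intro x hx x' hx' a a' ha ha' haa
    have hx1 : ‖x‖ ≤ 1 := hx
    have hx2 : ‖x'‖ ≤ 1 := hx'
    show ‖a • x + a' • x'‖ ≤ 1
    rw [hsmulY, hsmulY]
    calc ‖((a : ℝ) : 𝕜) • x + ((a' : ℝ) : 𝕜) • x'‖ ≤ ‖((a : ℝ) : 𝕜) • x‖ + ‖((a' : ℝ) : 𝕜) • x'‖ :=
          norm_add_le _ _
      _ = a * ‖x‖ + a' * ‖x'‖ := by
          rw [norm_smul, norm_smul, RCLike.norm_ofReal, RCLike.norm_ofReal, abs_of_nonneg ha,
            abs_of_nonneg ha']
      _ ≤ 1 := by nlinarith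
  have hbx : ∀ x ∈ P, ∀ f : Y →L[𝕜] 𝕜, |b x f| ≤ ‖f.comp T‖ := by
    intro x hx f
    have hx1 : ‖x‖ ≤ 1 := hx
    rw [hb]
    calc |RCLike.re (f (T x))| ≤ ‖f (T x)‖ := RCLike.abs_re_le_norm _
      _ = ‖(f.comp T) x‖ := rfl
      _ ≤ ‖f.comp T‖ * ‖x‖ := ContinuousLinearMap.le_opNorm _ _
      _ ≤ ‖f.comp T‖ * 1 := mul_le_mul_of_nonneg_left hx1 (norm_nonneg _)
      _ = _ := mul_one _
  set C : Finset X := univ.image xc with hC
  have hCcard : C.card ≤ 2 ^ k := by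
    calc C.card ≤ (univ : Finset (Fin (2 ^ k))).card := card_image_le
      _ = 2 ^ k := by rw [card_univ, Fintype.card_fin]
  have hnet : Net b P Q C (s / (40 * J)) := by
    refine ⟨?_, ?_⟩
    · intro x hx
      rw [hC, mem_image] at hx
      obtain ⟨c, _, rfl⟩ := hx
      exact hxc1 c
    · intro x hx
      obtain ⟨c, hc⟩ := hcov2 x hx
      refine ⟨xc c, mem_image_of_mem _ (mem_univ c), ?_⟩
      intro ζ hζ
      have hζ1 : ‖ζ‖ ≤ 1 := hζ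
      rw [hb, hb, ← map_sub, ← map_sub]
      calc |RCLike.re (ζ (T x - T (xc c)))| ≤ ‖ζ (T x - T (xc c))‖ := RCLike.abs_re_le_norm _
        _ ≤ ‖ζ‖ * ‖T x - T (xc c)‖ := ContinuousLinearMap.le_opNorm _ _
        _ ≤ 1 * (s / (40 * J)) := mul_le_mul hζ1 hc (norm_nonneg _) (by norm_num)
        _ = _ := one_mul _
  -- the points
  let z : Fin m ⊕ Bool → (Y →L[𝕜] 𝕜) := Sum.elim y (fun _ => 0)
  have h0D : (0 : Y →L[𝕜] 𝕜) ∈ D := by
    refine ⟨by simp, ?_⟩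
    rw [ContinuousLinearMap.zero_comp, norm_zero]
    positivity
  have hzD : ∀ i, z i ∈ D := by
    rintro (i | i)
    · exact hyD i
    · exact h0D
  have hcard : Fintype.card (Fin m ⊕ Bool) = m + 2 := by simp
  have hcard67 : ((Fintype.card (Fin m ⊕ Bool) : ℕ) : ℝ) ≤ 67 * 2 ^ k := by
    have h1 : m + 2 ≤ 67 * 2 ^ k := by
      have : 1 ≤ 2 ^ k := Nat.one_le_two_pow
      omega
    rw [hcard]
    exact_mod_cast h1
  have hcpos : (0 : ℝ) < ((Fintype.card (Fin m ⊕ Bool) : ℕ) : ℝ) := by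
    rw [hcard]; positivity
  have hlog : Real.log (Fintype.card (Fin m ⊕ Bool)) ≤ (k : ℝ) + 5 :=
    (Real.log_le_log hcpos hcard67).trans (log_card_le k)
  have hJr2 : (16384 : ℝ) * ((k : ℝ) + 5) ≤ 4 ^ J := by exact_mod_cast hJ
  obtain ⟨V, hVcard, hV⟩ := local_cover (b := b) (P := P) (Q := Q) (C := C) (δ := s / (40 * J))
    (z := z) (e := s / 2) (D := 16 * s) hPconv (fun x hx => by
      show ‖-x‖ ≤ 1
      rw [norm_neg]; exact hx) hQconv hnet (by positivity) ⟨0, by simp [hP]⟩ (fun i => (hzD i).1)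
    (by positivity) J (by rw [hcard]; omega) (hlog.trans (by
      have : (0 : ℝ) ≤ k := Nat.cast_nonneg k
      linarith))
  have hVc : Fintype.card V ≤ 2 ^ (k * J) := by
    rw [Fintype.card_coe]
    calc V.card ≤ C.card ^ J := hVcard
      _ ≤ (2 ^ k) ^ J := Nat.pow_le_pow_left hCcard J
      _ = 2 ^ (k * J) := (pow_mul _ _ _).symm
  obtain ⟨W, hW⟩ := reindex (2 ^ (k * J)) hVc (fun v => (v : Y →L[𝕜] 𝕜).comp T)
  refine ⟨W, fun ξ hξ1 hξ2 => ?_⟩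
  have hξD : ξ ∈ D := ⟨hξ1, hξ2⟩
  obtain ⟨lam, hl, hl1, hlnorm⟩ := hhull ξ hξD
  obtain ⟨v, hv, hvx⟩ := hV ξ hξ1 (by
    intro x hx i
    refine (hbx x hx _).trans ?_
    have h1 : (z i - ξ).comp T = (z i).comp T - ξ.comp T := by ext; simp
    rw [h1]
    calc ‖(z i).comp T - ξ.comp T‖ ≤ ‖(z i).comp T‖ + ‖ξ.comp T‖ := norm_sub_le _ _
      _ ≤ 16 * s := by linarith [(hzD i).2]) (by
    refine ⟨Sum.elim lam (fun _ => 0), ?_, ?_, ?_⟩
    · rintro (i | i)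
      · exact hl i
      · exact le_rfl
    · rw [Fintype.sum_sum_type]
      simp [hl1]
    · intro x hx
      have hz0 : ∑ i, (Sum.elim lam (fun _ => (0 : ℝ)) i) • z i = ∑ i, ((lam i : ℝ) : 𝕜) • y i := by
        rw [Fintype.sum_sum_type]
        have h1 : ∑ i : Bool, (Sum.elim lam (fun _ => (0 : ℝ)) (Sum.inr i)) • z (Sum.inr i) = 0 := by
          refine sum_eq_zero fun i _ => ?_
          show (0 : ℝ) • (0 : Y →L[𝕜] 𝕜) = 0
          rw [hsmulY]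
          ext v
          simp only [smul_apply, zero_apply, smul_zero]
        rw [h1, add_zero]
        refine sum_congr rfl fun i _ => ?_
        simp only [Sum.elim_inl, z, hsmulY]
      rw [hz0]
      refine (hbx x hx _).trans ?_
      exact hlnorm)
  obtain ⟨j, hj⟩ := hW ⟨v, hv⟩
  refine ⟨j, ?_⟩
  rw [hj]
  have hcomp : ξ.comp T - v.comp T = (ξ - v).comp T := by ext; simp
  rw [hcomp]
  refine norm_le_of_re _ _ hs.le fun x hx => ?_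
  have h1 := (abs_le.1 (hvx x hx)).2
  have h2 : RCLike.re ((ξ - v).comp T x) = b x (ξ - v) := rfl
  rw [h2]
  refine h1.trans ?_
  have h3 : √(Real.log (Fintype.card (Fin m ⊕ Bool)) / 4 ^ J) ≤ 1 / 128 := by
    rw [Real.sqrt_le_left (by norm_num)]
    rw [div_le_iff₀ (by positivity)]
    linarith
  have h4 : 10 * (J : ℝ) * (s / (40 * J)) = s / 4 := by
    field_simp
    norm_num
  rw [h4]
  have h5 : 2 * (16 * s) * √(Real.log (Fintype.card (Fin m ⊕ Bool)) / 4 ^ J) ≤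
      2 * (16 * s) * (1 / 128) := mul_le_mul_of_nonneg_left h3 (by positivity)
  linarith

theorem tele_log (T : X →L[𝕜] Y) (R : ℝ) (hR : 0 < R) (hT : ‖T‖ ≤ R) (k J : ℕ → ℕ)
    (hJ : ∀ j, 16384 * (k j + 5) ≤ 4 ^ J j)
    (cov : ∀ j, ∃ w : Fin (2 ^ (k j)) → Y, ∀ x : X, ‖x‖ ≤ 1 →
      ∃ c, ‖T x - w c‖ ≤ R / 4 ^ j / (640 * J j))
    (L : ℕ) :
    ∃ W : Fin (2 ^ (∑ j ∈ range L, k j * J j)) → (X →L[𝕜] 𝕜), ∀ y : Y →L[𝕜] 𝕜,
      ‖y‖ ≤ 1 → ∃ i, ‖y.comp T - W i‖ ≤ R / 4 ^ L := by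
  classical
  induction L with
  | zero =>
    refine ⟨fun _ => 0, fun y hy => ⟨⟨0, by simp⟩, ?_⟩⟩
    rw [sub_zero, pow_zero, div_one]
    calc ‖y.comp T‖ ≤ ‖y‖ * ‖T‖ := ContinuousLinearMap.opNorm_comp_le _ _
      _ ≤ 1 * R := mul_le_mul hy hT (norm_nonneg _) (by norm_num)
      _ = R := one_mul R
  | succ L ih =>
    obtain ⟨W, hW⟩ := ih
    obtain ⟨w, hw⟩ := cov L
    have h4 : (0 : ℝ) < 4 ^ L := by positivity
    set s : ℝ := R / 4 ^ L / 8 with hs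
    have hspos : 0 < s := by positivity
    obtain ⟨V, hV⟩ := one_scale_log T (k L) (J L) s hspos (hJ L) w (fun x hx => by
      obtain ⟨c, hc⟩ := hw x hx
      exact ⟨c, hc.trans (le_of_eq (by rw [hs, div_div, div_div, div_div]; congr 1; ring))⟩)
    -- representatives
    have hrep : ∀ i, ∃ y0 : Y →L[𝕜] 𝕜, ‖y0‖ ≤ 1 ∧ ∀ y : Y →L[𝕜] 𝕜, ‖y‖ ≤ 1 →
        ‖y.comp T - W i‖ ≤ R / 4 ^ L → ‖y0.comp T - W i‖ ≤ R / 4 ^ L := by
      intro i
      by_cases h : ∃ y0 : Y →L[𝕜] 𝕜, ‖y0‖ ≤ 1 ∧ ‖y0.comp T - W i‖ ≤ R / 4 ^ L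
      · obtain ⟨y0, h1, h2⟩ := h
        exact ⟨y0, h1, fun _ _ _ => h2⟩
      · exact ⟨0, by simp, fun y h1 h2 => absurd ⟨y, h1, h2⟩ h⟩
    choose y0 hy0 hy0' using hrep
    have hcard : Fintype.card (Fin (2 ^ (∑ j ∈ range L, k j * J j)) ×
        Fin (2 ^ (k L * J L))) ≤ 2 ^ (∑ j ∈ range (L + 1), k j * J j) := by
      rw [Fintype.card_prod, Fintype.card_fin, Fintype.card_fin, Finset.sum_range_succ, ← pow_add]
    obtain ⟨W', hW'⟩ := reindex _ hcard (fun p => (y0 p.1).comp T + (2 : 𝕜) • V p.2)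
    refine ⟨W', fun y hy => ?_⟩
    obtain ⟨i, hi⟩ := hW y hy
    have hi0 := hy0' i y hy hi
    set h : Y →L[𝕜] 𝕜 := ((2 : 𝕜)⁻¹) • (y - y0 i) with hh
    have hn2 : ‖((2 : 𝕜)⁻¹)‖ = 2⁻¹ := by
      rw [norm_inv, RCLike.norm_ofNat]
    have hnorm1 : ‖h‖ ≤ 1 := by
      rw [hh, norm_smul, hn2]
      have : ‖y - y0 i‖ ≤ 2 := by
        calc ‖y - y0 i‖ ≤ ‖y‖ + ‖y0 i‖ := norm_sub_le _ _
          _ ≤ 2 := by linarith [hy0 i]
      linarith
    have hcomp : h.comp T = ((2 : 𝕜)⁻¹) • (y.comp T - (y0 i).comp T) := by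
      ext v; simp [hh]
    have hnorm2 : ‖h.comp T‖ ≤ 8 * s := by
      rw [hcomp, norm_smul, hn2]
      have h1 : ‖y.comp T - (y0 i).comp T‖ ≤ 2 * (R / 4 ^ L) := by
        calc ‖y.comp T - (y0 i).comp T‖ = ‖(y.comp T - W i) - ((y0 i).comp T - W i)‖ := by
              congr 1; abel
          _ ≤ ‖y.comp T - W i‖ + ‖(y0 i).comp T - W i‖ := norm_sub_le _ _
          _ ≤ 2 * (R / 4 ^ L) := by linarith
      have h2 : 8 * s = R / 4 ^ L := by rw [hs]; ring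
      rw [h2]
      linarith
    obtain ⟨l, hl⟩ := hV h hnorm1 hnorm2
    obtain ⟨j, hj⟩ := hW' (i, l)
    refine ⟨j, ?_⟩
    rw [hj]
    have h2ne : (2 : 𝕜) ≠ 0 := two_ne_zero
    have e1 : y.comp T - ((y0 i).comp T + (2 : 𝕜) • V l) = (2 : 𝕜) • (h.comp T - V l) := by
      rw [hcomp, smul_sub, smul_smul, mul_inv_cancel₀ h2ne, one_smul]
      abel
    show ‖y.comp T - ((y0 i).comp T + (2 : 𝕜) • V l)‖ ≤ _
    rw [e1, norm_smul, RCLike.norm_ofNat]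
    have h3 : R / 4 ^ (L + 1) = 2 * s := by rw [hs, pow_succ]; field_simp; norm_num
    rw [h3]
    linarith

end

end Pool.Agent.Work.MP_c13439_h10
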